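import Pool.Agent.H16.ZW.Targets

/-!
zw_modules, row BAS: a basis of the lattice orthogonal to `w`.
-/

open Matrix

namespace Pool.Agent.H17.ZW.BAS

open Pool.Agent.H16.ZW

/-- the lattice orthogonal to `w` -/
def L0 {N : ℕ} (w : Fin N → ℤ) : Submodule ℤ (Fin N → ℤ) where
  carrier := {γ | Ort w γ}
  zero_mem' := by
    show ∑ i, (0 : Fin N → ℤ) i * w i = 0
    simp
  add_mem' := by
    intro a b ha hb
    have ha' : ∑ i, a i * w i = 0 := ha
    have hb' : ∑ i, b i * w i = 0 := hb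
    show ∑ i, (a + b) i * w i = 0
    simp only [Pi.add_apply, add_mul, Finset.sum_add_distrib, ha', hb', add_zero]
  smul_mem' := by
    intro c a ha
    have ha' : ∑ i, a i * w i = 0 := ha
    show ∑ i, (c • a) i * w i = 0
    simp only [Pi.smul_apply, smul_eq_mul, mul_assoc, ← Finset.mul_sum, ha', mul_zero]

/-- BAS: a basis of the lattice orthogonal to `w`. -/
theorem bas : T_BAS := by
  intro N w C p hp hC hC1
  obtain ⟨m, b⟩ := Submodule.basisOfPid (Pi.basisFun ℤ (Fin N)) (L0 w)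
  let Φ : Matrix (Fin m) (Fin N) ℤ := fun i => (b i : Fin N → ℤ)
  have hΦ : ∀ a : Fin m → ℤ, Matrix.vecMul a Φ = ((∑ i, a i • b i : L0 w) : Fin N → ℤ) := by
    intro a
    rw [Matrix.vecMul_eq_sum]
    rw [Submodule.coe_sum]
    rfl
  have h1 : ∀ a : Fin m → ℤ, Ort w (Matrix.vecMul a Φ) := by
    intro a
    rw [hΦ]
    exact (∑ i, a i • b i : L0 w).2
  have h2 : ∀ γ : Fin N → ℤ, Ort w γ → ∃ a : Fin m → ℤ, Matrix.vecMul a Φ = γ := by
    intro γ hγ
    refine ⟨fun i => b.repr ⟨γ, hγ⟩ i, ?_⟩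
    rw [hΦ, b.sum_repr]
  have h3 : ∀ a : Fin m → ℤ, Matrix.vecMul a Φ = 0 → a = 0 := by
    intro a ha
    rw [hΦ] at ha
    have ha' : ∑ i, a i • b i = 0 := Subtype.ext ha
    have hli := Fintype.linearIndependent_iff.mp b.linearIndependent a ha'
    exact funext hli
  have h4 : ∀ i : Fin m, ∃ a : Fin m → ℤ, Matrix.vecMul a Φ = Matrix.vecMul (Φ i) C :=
    fun i => h2 _ (hC _ (b i).2)
  choose C' hC' using h4
  have hmat : (Matrix.of C') * Φ = Φ * C := by
    ext i j
    exact congrFun (hC' i) j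
  have h6 : ∀ a : Fin m → ℤ, Dv p (Matrix.vecMul a Φ) → Dv p a := by
    intro a ha
    choose g hg using ha
    have hg' : Matrix.vecMul a Φ = (p : ℤ) • g := funext fun i => by
      rw [hg i]; rfl
    have hp0 : (p : ℤ) ≠ 0 := by exact_mod_cast hp.ne_zero
    have hgo : Ort w g := by
      have h5 := h1 a
      rw [hg'] at h5
      have h7 : ∑ i, ((p : ℤ) • g) i * w i = 0 := h5
      simp only [Pi.smul_apply, smul_eq_mul, mul_assoc, ← Finset.mul_sum] at h7
      exact (mul_eq_zero.mp h7).resolve_left hp0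
    obtain ⟨a', ha'⟩ := h2 g hgo
    have h8 : a - (p : ℤ) • a' = 0 := by
      apply h3
      rw [Matrix.sub_vecMul, Matrix.smul_vecMul, ha', hg', sub_self]
    intro i
    refine ⟨a' i, ?_⟩
    have h9 := congrFun h8 i
    simp only [Pi.sub_apply, Pi.smul_apply, smul_eq_mul, Pi.zero_apply] at h9
    linarith
  refine ⟨m, Φ, Matrix.of C', h1, h2, h3, ?_, ?_, h6⟩
  · intro a
    rw [Matrix.vecMul_vecMul, Matrix.vecMul_vecMul, hmat]
  · intro i
    apply h6
    have h7 : Matrix.vecMul ((Matrix.of C' - 1) i) Φ =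
        (Φ * (C - 1) : Matrix (Fin m) (Fin N) ℤ) i := by
      have h8 : (Matrix.of C' - 1) * Φ = Φ * (C - 1) := by
        rw [Matrix.sub_mul, Matrix.mul_sub, hmat, Matrix.one_mul, Matrix.mul_one]
      exact congrFun h8 i
    rw [h7]
    intro j
    rw [Matrix.mul_apply]
    apply Finset.dvd_sum
    intro k _
    exact Dvd.dvd.mul_left (hC1 k j) _

end Pool.Agent.H17.ZW.BAS
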