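import Pool.Agent.H12.ZD.Good
import Pool.Agent.H16.ZW.Targets

/-!
zw_modules, row FRB: residual orbits.
-/

open MvPolynomial IsLocalRing

namespace Pool.Agent.H17.ZW.FRB

open Pool.Agent.H16.ZW
open Pool.Agent.H12.ZD

variable (p : Nat.Primes)

open Classical in
/-- the residue of an integral algebraic number -/
noncomputable def rs (z : Qb) : Res p :=
  if h : v p z ≤ 1 then residue (O p) ⟨z, h⟩ else 0

theorem rs_coe (z : O p) : rs p (z : Qb) = residue (O p) z :=
  dif_pos (c := v p (z : Qb) ≤ 1) z.2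

theorem rs_of {z : Qb} (h : v p z ≤ 1) : rs p z = residue (O p) ⟨z, h⟩ := dif_pos h

theorem rs_one : rs p 1 = 1 := by
  have := rs_coe p 1
  rw [map_one] at this
  exact this

theorem rs_mul {z w : Qb} (hz : v p z ≤ 1) (hw : v p w ≤ 1) : rs p (z * w) = rs p z * rs p w := by
  rw [rs_of p hz, rs_of p hw, ← map_mul, ← rs_coe]
  rfl

theorem rs_pow {z : Qb} (hz : v p z ≤ 1) (n : ℕ) : rs p (z ^ n) = rs p z ^ n := by
  rw [rs_of p hz, ← map_pow, ← rs_coe]
  rfl

theorem rs_inv {z : Qb} (hz : v p z = 1) : rs p z⁻¹ = (rs p z)⁻¹ := by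
  have hz0 : z ≠ 0 := by
    intro h
    rw [h, v_zero] at hz
    exact zero_ne_one hz
  have h1 : v p z⁻¹ = 1 := by rw [v_inv, hz, inv_one]
  have h2 := rs_mul p hz.le h1.le
  rw [mul_inv_cancel₀ hz0, rs_one] at h2
  exact (eq_inv_of_mul_eq_one_right h2.symm)

theorem rs_zpow {z : Qb} (hz : v p z = 1) (n : ℤ) : rs p (z ^ n) = rs p z ^ n := by
  obtain ⟨m, rfl | rfl⟩ := n.eq_nat_or_neg
  · rw [zpow_natCast, zpow_natCast, rs_pow p hz.le]
  · rw [zpow_neg, zpow_neg, zpow_natCast, zpow_natCast, rs_inv p (by rw [v_pow, hz, one_pow]),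
      rs_pow p hz.le]

theorem v_zpow_one {z : Qb} (hz : v p z = 1) (n : ℤ) : v p (z ^ n) = 1 := by
  obtain ⟨m, rfl | rfl⟩ := n.eq_nat_or_neg
  · rw [zpow_natCast, v_pow, hz, one_pow]
  · rw [zpow_neg, v_inv, zpow_natCast, v_pow, hz, one_pow, inv_one]

theorem rs_prod {ι : Type} (s : Finset ι) (f : ι → Qb) (h : ∀ i ∈ s, v p (f i) = 1) :
    v p (∏ i ∈ s, f i) = 1 ∧ rs p (∏ i ∈ s, f i) = ∏ i ∈ s, rs p (f i) := by
  classical
  induction s using Finset.induction_on with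
  | empty => exact ⟨by simp, by simpa using rs_one p⟩
  | insert i s hi ih =>
    obtain ⟨h1, h2⟩ := ih fun j hj => h j (Finset.mem_insert_of_mem hj)
    have h3 := h i (Finset.mem_insert_self i s)
    rw [Finset.prod_insert hi, Finset.prod_insert hi]
    exact ⟨by rw [v_mul, h1, h3, one_mul], by rw [rs_mul p h3.le h1.le, h2]⟩

theorem rs_mon {N : ℕ} (x : Fin N → Qb) (hx : ∀ i, v p (x i) = 1) (a : Fin N → ℤ) :
    v p (mon x a) = 1 ∧ rs p (mon x a) = mon (fun i => rs p (x i)) a := by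
  unfold mon
  obtain ⟨h1, h2⟩ := rs_prod p Finset.univ (fun i => x i ^ a i)
    (fun i _ => v_zpow_one p (hx i) (a i))
  refine ⟨h1, h2.trans ?_⟩
  exact Finset.prod_congr rfl fun i _ => rs_zpow p (hx i) (a i)

theorem rs_eq {z w : Qb} (hz : v p z ≤ 1) (hw : v p w ≤ 1) : rs p z = rs p w ↔ v p (z - w) < 1 := by
  rw [rs_of p hz, rs_of p hw, residue_eq]

theorem rs_ne {z : Qb} (hz : v p z ≤ 1) : rs p z ≠ 0 ↔ v p z = 1 := by
  rw [rs_of p hz, residue_ne_zero]

theorem rs_eval {N : ℕ} (x : Fin N → Qb) (hx : ∀ i, v p (x i) ≤ 1)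
    (G₀ : MvPolynomial (Fin N) (O p)) :
    v p (eval x (map (O p).subtype G₀)) ≤ 1 ∧
    rs p (eval x (map (O p).subtype G₀)) = eval (fun i => rs p (x i)) (map (residue (O p)) G₀) := by
  let X : Fin N → O p := fun i => ⟨x i, hx i⟩
  have h1 : eval x (map (O p).subtype G₀) = ((eval X G₀ : O p) : Qb) := by
    have h2 := eval₂_comp (O p).subtype X G₀
    rw [eval_map]
    exact h2.symm
  have h3 : (fun i => rs p (x i)) = fun i => residue (O p) (X i) :=
    funext fun i => rs_of p (hx i)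
  rw [h1, rs_coe, h3, eval_map]
  exact ⟨(eval X G₀ : O p).2, eval₂_comp (residue (O p)) X G₀⟩

theorem pow_sub_one_roots (y : Qb) (L : ℕ) (hL : 1 ≤ L) :
    ∃ s : Multiset Qb, (∀ z ∈ s, z ^ L = 1) ∧ y ^ L - 1 = (s.map fun z => y - z).prod := by
  let P : Polynomial Qb := Polynomial.X ^ L - Polynomial.C 1
  have hmonic : P.Monic := Polynomial.monic_X_pow_sub_C 1 (by omega)
  have hsplit : P.Splits := IsAlgClosed.splits P
  have hprod := hsplit.eq_prod_roots_of_monic hmonic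
  refine ⟨P.roots, ?_, ?_⟩
  · intro z hz
    have h1 := (Polynomial.mem_roots hmonic.ne_zero).mp hz
    rw [Polynomial.IsRoot.def, Polynomial.eval_sub, Polynomial.eval_pow, Polynomial.eval_X,
      Polynomial.eval_C] at h1
    exact sub_eq_zero.mp h1
  · have h1 : Polynomial.eval y P = y ^ L - 1 := by
      rw [Polynomial.eval_sub, Polynomial.eval_pow, Polynomial.eval_X, Polynomial.eval_C]
    rw [← h1]
    conv_lhs => rw [hprod]
    rw [Polynomial.eval_multiset_prod, Multiset.map_map]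
    congr 1
    apply Multiset.map_congr rfl
    intro z _
    rw [Function.comp_apply, Polynomial.eval_sub, Polynomial.eval_X, Polynomial.eval_C]

theorem exists_close (y : Qb) (s : Multiset Qb) (h : v p ((s.map fun z => y - z).prod) < 1) :
    ∃ z ∈ s, v p (y - z) < 1 := by
  by_contra hcon
  push Not at hcon
  have key : ∀ s : Multiset Qb, (∀ z ∈ s, 1 ≤ v p (y - z)) →
      1 ≤ v p ((s.map fun z => y - z).prod) := by
    intro s
    induction s using Multiset.induction_on with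
    | empty => intro _; simp
    | cons z s ih =>
      intro h
      rw [Multiset.map_cons, Multiset.prod_cons, v_mul]
      exact one_le_mul_of_one_le_of_one_le (h z (Multiset.mem_cons_self z s))
        (ih fun w hw => h w (Multiset.mem_cons_of_mem hw))
  exact absurd h (not_lt.mpr (key s hcon))

/-- a residue of finite order prime to `p` is the residue of a root of unity -/
theorem lift_root {a : Res p} {L : ℕ} (hL : 1 ≤ L) (ha : a ^ L = 1) :
    ∃ z : Qb, z ^ L = 1 ∧ v p z = 1 ∧ rs p z = a := by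
  obtain ⟨y, hy⟩ := residue_surjective p a
  have hya : rs p (y : Qb) = a := (rs_coe p y).trans hy
  have hy1 : v p (y : Qb) ≤ 1 := y.2
  generalize (y : Qb) = Y at hya hy1
  have hroot1 : ∀ z : Qb, z ^ L = 1 → v p z = 1 := by
    intro z hz
    have h1 : v p z ^ L = 1 := by rw [← v_pow, hz, v_one]
    exact (pow_eq_one_iff_of_nonneg (v_nonneg p z) (by omega)).mp h1
  have hYL : v p (Y ^ L - 1) < 1 := by
    have h2 : v p (Y ^ L) ≤ 1 := by
      rw [v_pow]
      exact pow_le_one₀ (v_nonneg p Y) hy1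
    have h3 : v p (1 : Qb) ≤ 1 := by rw [v_one]
    rw [← rs_eq p h2 h3, rs_pow p hy1, hya, ha, rs_one]
  obtain ⟨s, hs, hprod⟩ := pow_sub_one_roots Y L hL
  rw [hprod] at hYL
  obtain ⟨z, hz, hzy⟩ := exists_close p Y s hYL
  refine ⟨z, hs z hz, hroot1 z (hs z hz), ?_⟩
  rw [← hya, rs_eq p (hroot1 z (hs z hz)).le hy1, v_sub_comm]
  exact hzy

/-- in characteristic `p`, the order can be taken prime to `p` -/
theorem order_prime (κ : Type) [Field κ] (q : ℕ) [CharP κ q] (hq : q.Prime) (a : κ) (n : ℕ)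
    (hn : 1 ≤ n) (ha : a ^ n = 1) : ∃ m : ℕ, 1 ≤ m ∧ ¬ q ∣ m ∧ a ^ m = 1 := by
  obtain ⟨e, m, hm, hnm⟩ := Nat.exists_eq_pow_mul_and_not_dvd (n := n) (by omega) q hq.ne_one
  have : Fact q.Prime := ⟨hq⟩
  have : ExpChar κ q := inferInstance
  refine ⟨m, ?_, hm, ?_⟩
  · rcases Nat.eq_zero_or_pos m with h | h
    · exact absurd (h ▸ dvd_zero q) hm
    · exact h
  · apply iterateFrobenius_inj κ q e
    rw [iterateFrobenius_def, map_one, ← pow_mul, mul_comm m, ← hnm, ha]

/-- FRB: residual orbits. -/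
theorem frb (hFTX : T_FTX) (hMON : T_MON) : T_FRB := by
  classical
  intro N A hA c hc G hG
  obtain ⟨M₁, hM₁⟩ := exists_bound_lift G
  choose M₂ hM₂ using fun i => exists_bound_eq (hc i)
  refine ⟨max (max M₁ (Finset.univ.sup M₂)) A.det.natAbs, fun p hp => ?_⟩
  have hp1 : M₁ < p := lt_of_le_of_lt ((le_max_left _ _).trans (le_max_left _ _)) hp
  have hp2 : Finset.univ.sup M₂ < p :=
    lt_of_le_of_lt ((le_max_right _ _).trans (le_max_left _ _)) hp
  have hp3 : A.det.natAbs < p := lt_of_le_of_lt (le_max_right _ _) hp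
  have hc1 : ∀ i, v p (c i) = 1 := fun i =>
    hM₂ i p (lt_of_le_of_lt (Finset.le_sup (Finset.mem_univ i)) hp2)
  obtain ⟨G₀, hG₀, hGne⟩ := hM₁ p hp1
  have hdet : ¬ ((p : ℕ) : ℤ) ∣ A.det := by
    intro h
    have h1 : (p : ℕ) ∣ A.det.natAbs := Int.natCast_dvd.mp h
    have h2 := Nat.le_of_dvd (Int.natAbs_pos.mpr hA) h1
    omega
  have : CharP (Res p) (p : ℕ) := by
    have h1 : ((p : ℕ) : Res p) = 0 := res_cast p
    exact (CharP.charP_iff_prime_eq_zero p.2).mpr h1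
  obtain ⟨_, hpowm, _, _, _, _⟩ := hMON N
  let cb : Fin N → Res p := fun i => rs p (c i)
  have hcb : ∀ i, cb i ≠ 0 := fun i => (rs_ne p (hc1 i).le).mpr (hc1 i)
  let Gb : MvPolynomial (Fin N) (Res p) := map (residue (O p)) G₀
  obtain ⟨x, r, hr, hx0, hxA, hcr, hGr, hGx⟩ := hFTX (Res p) (p : ℕ) p.2
    (fun a ha => res_finite_order p a ha) N A hdet cb hcb Gb (hGne hG)
  -- finite orders prime to p
  have hord : ∀ i, ∃ m : ℕ, 1 ≤ m ∧ ¬ (p : ℕ) ∣ m ∧ x i ^ m = 1 := by
    intro i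
    obtain ⟨n, hn, hn1⟩ := res_finite_order p (x i) (hx0 i)
    exact order_prime (Res p) p p.2 (x i) n hn hn1
  choose n hn1 hn2 hn3 using hord
  let L := ∏ i, n i
  have hL1 : 1 ≤ L := Nat.one_le_iff_ne_zero.mpr (Finset.prod_ne_zero_iff.mpr fun i _ => by
    have := hn1 i; omega)
  have hLp : ¬ (p : ℕ) ∣ L := by
    intro h
    obtain ⟨i, _, hi⟩ := (Prime.dvd_finsetProd_iff p.2.prime n).mp h
    exact hn2 i hi
  have hxL : ∀ i, x i ^ L = 1 := by
    intro i
    obtain ⟨d, hd⟩ : n i ∣ L := Finset.dvd_prod_of_mem n (Finset.mem_univ i)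
    rw [hd, pow_mul, hn3, one_pow]
  choose ξ hξL hξ1 hξx using fun i => lift_root p hL1 (hxL i)
  -- the iterates
  set Q : ℕ := (p : ℕ) ^ r with hQ
  have hfix : ∀ a : Res p, a ^ Q = a → ∀ k, a ^ Q ^ k = a := by
    intro a ha k
    induction k with
    | zero => simp
    | succ k ih => rw [pow_succ, pow_mul, ih, ha]
  have hQk : ∀ k, Q ^ k = (p : ℕ) ^ (r * k) := fun k => by rw [hQ, pow_mul]
  have hstep : ∀ k i, cb i * mon (fun j => x j ^ Q ^ k) (A i) = x i ^ Q ^ (k + 1) := by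
    intro k i
    calc cb i * mon (fun j => x j ^ Q ^ k) (A i) = (cb i * mon x (A i)) ^ Q ^ k := by
          rw [mul_pow, hfix (cb i) (hcr i) k, (hpowm (Res p) x (A i) (Q ^ k)).2]
      _ = x i ^ Q ^ (k + 1) := by rw [hxA, ← pow_mul, pow_succ']
  have heval : ∀ k, eval (fun j => x j ^ Q ^ k) Gb ≠ 0 := by
    intro k
    have h1 : (iterateFrobenius (Res p) p (r * k)) (eval x Gb) = eval (fun j => x j ^ Q ^ k) Gb := by
      have h2 : map (iterateFrobenius (Res p) p (r * k)) Gb = Gb := by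
        ext m
        rw [coeff_map, iterateFrobenius_def, ← hQk]
        exact hfix _ (hGr m) k
      have h3 := eval₂_comp (iterateFrobenius (Res p) p (r * k)) x Gb
      conv_rhs => rw [← h2, eval_map]
      rw [h3]
      have h4 : (fun j => x j ^ Q ^ k) = ⇑(iterateFrobenius (Res p) p (r * k)) ∘ x := by
        funext j
        rw [Function.comp_apply, iterateFrobenius_def, ← hQk]
      rw [h4]
    rw [← h1]
    intro h0
    apply hGx
    exact iterateFrobenius_inj (Res p) p (r * k) (by rw [h0, map_zero])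
  have hξk : ∀ k i, v p (ξ i ^ Q ^ k) = 1 := fun k i => by rw [v_pow, hξ1, one_pow]
  have hξr : ∀ k, (fun i => rs p (ξ i ^ Q ^ k)) = fun i => x i ^ Q ^ k := fun k =>
    funext fun i => by rw [rs_pow p (hξ1 i).le, hξx]
  refine ⟨ξ, L, r, hr, hL1, hLp, hξL, fun k => ⟨?_, fun i => ?_⟩⟩
  · obtain ⟨h1, h2⟩ := rs_eval p (fun i => ξ i ^ Q ^ k) (fun i => (hξk k i).le) G₀
    rw [hG₀] at h1 h2
    rw [← rs_ne p h1, h2, hξr]
    exact heval k
  · obtain ⟨h1, h2⟩ := rs_mon p (fun i => ξ i ^ Q ^ k) (hξk k) (A i)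
    have h3 : v p (c i * mon (fun i => ξ i ^ Q ^ k) (A i)) ≤ 1 := by
      rw [v_mul, hc1, h1, one_mul]
    rw [← rs_eq p h3 (hξk (k + 1) i).le, rs_mul p (hc1 i).le h1.le, h2, hξr]
    have h4 : rs p (ξ i ^ Q ^ (k + 1)) = x i ^ Q ^ (k + 1) := congrFun (hξr (k + 1)) i
    rw [h4]
    exact hstep k i

end Pool.Agent.H17.ZW.FRB
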