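import Pool.Agent.H16.ZW.Targets

/-!
zw_modules, row REL: a polynomial vanishing on the orbit gives a relation between characters.
-/

open Filter Topology MvPolynomial

namespace Pool.Agent.H17.ZW.REL

open Pool.Agent.H16.ZW
open Pool.Agent.H12.ZD (v emb)
open Pool.Agent.H12.ZD

/-- the exponent vector with integer entries -/
def mz {N : ℕ} (m : Fin N →₀ ℕ) : Fin N → ℤ := fun i => (m i : ℤ)

theorem mz_inj {N : ℕ} : Function.Injective (mz (N := N)) := by
  intro a b h
  ext i
  have := congrFun h i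
  exact Nat.cast_injective this

theorem eval_mon {N : ℕ} (X : Fin N → Qb) (R : MvPolynomial (Fin N) Qb) :
    eval X R = ∑ m ∈ R.support, coeff m R * mon X (mz m) := by
  rw [eval_eq']
  refine Finset.sum_congr rfl fun m _ => ?_
  congr 1
  unfold mon mz
  refine Finset.prod_congr rfl fun i _ => ?_
  rw [zpow_natCast]

/-- REL: a polynomial vanishing on the orbit gives a relation between characters. -/
theorem rel (hMON : T_MON) : T_REL := by
  intro N D hD p q x y hO R hR hvan
  obtain ⟨hadd, _, hmul, _, hsc, hunit⟩ := hMON N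
  let W : (Fin N →₀ ℕ) → ℤ := fun m => ∑ i, mz m i * D.w i
  have hne : R.support.Nonempty := by
    rw [Finset.nonempty_iff_ne_empty]
    intro h
    exact hR (support_eq_empty.mp h)
  obtain ⟨m0, hm0, hmax⟩ := R.support.exists_max_image W hne
  let S0 := R.support.filter fun m => W m = W m0
  let sh : (Fin N →₀ ℕ) → (Fin N → ℤ) := fun m => mz m - mz m0
  have hsh : Function.Injective sh := fun a b h => mz_inj (sub_left_injective h)
  let r : (Fin N → ℤ) → Qb := fun γ =>
    coeff (Finsupp.equivFunOnFinite.symm (fun i => (γ i + mz m0 i).toNat)) R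
  have hr : ∀ m, r (sh m) = coeff m R := by
    intro m
    show coeff _ R = coeff m R
    congr 1
    ext i
    show ((sh m) i + mz m0 i).toNat = m i
    show ((mz m i - mz m0 i) + mz m0 i).toNat = m i
    rw [sub_add_cancel]
    exact Int.toNat_natCast _
  have hyu : ∀ n i, v p (y n i) = 1 := hO.unit
  have hy0 : ∀ n i, y n i ≠ 0 := by
    intro n i h
    have := hyu n i
    rw [h, v_zero] at this
    exact zero_ne_one this
  have hvm : ∀ n a, v p (mon (y n) a) = 1 := fun n a =>
    (hunit p (y n) (y n) a 1 le_rfl (hyu n) (hyu n)).1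
  let t : ℕ → Qb := fun n => t0 p ^ D.δ ^ n
  have hp0 : ((p : ℕ) : Qb) ≠ 0 := by
    have := p.2.ne_zero
    exact_mod_cast this
  have ht0 : t0 p ≠ 0 := by
    unfold t0
    exact inv_ne_zero (pow_ne_zero _ hp0)
  have ht : ∀ n, t n ≠ 0 := fun n => pow_ne_zero _ ht0
  have hpR : (1 : ℝ) < (p : ℕ) := by exact_mod_cast p.2.one_lt
  have hvt0 : (v p (t0 p))⁻¹ = ((((p : ℕ) : ℝ))⁻¹) ^ 2 := by
    unfold t0
    rw [v_inv, v_pow, v_self, inv_inv]
  set u : ℝ := ((((p : ℕ) : ℝ))⁻¹) ^ 2 with hu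
  have hu0 : 0 ≤ u := by positivity
  have hu1 : u < 1 := by
    rw [hu]
    apply pow_lt_one₀ (by positivity) _ two_ne_zero
    exact inv_lt_one_of_one_lt₀ hpR
  have hvt : ∀ n, (v p (t n))⁻¹ = u ^ (D.δ ^ n) := by
    intro n
    show (v p (t0 p ^ D.δ ^ n))⁻¹ = _
    rw [v_pow, ← inv_pow, hvt0]
  have hvt1 : ∀ n, 1 ≤ v p (t n) := by
    intro n
    have h1 : (v p (t n))⁻¹ ≤ 1 := by
      rw [hvt]
      exact pow_le_one₀ hu0 hu1.le
    have h2 : 0 < v p (t n) := (v_pos p).mpr (ht n)
    rwa [inv_le_one₀ h2] at h1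
  -- the relation at the n-th point
  have hrel : ∀ n, ∑ m ∈ R.support, coeff m R * ((t n) ^ (W m - W m0) * mon (y n) (sh m)) = 0 := by
    intro n
    have h1 := hvan n
    have h2 : D.map^[n] x = fun i => (t n) ^ D.w i * y n i := funext fun i => hO.orb n i
    rw [h2, eval_mon] at h1
    have h3 : ∀ m ∈ R.support, coeff m R * ((t n) ^ (W m - W m0) * mon (y n) (sh m)) =
        coeff m R * mon (fun i => (t n) ^ D.w i * y n i) (mz m) *
          ((t n) ^ (- W m0) * mon (y n) (- mz m0)) := by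
      intro m _
      rw [hmul Qb, hsc Qb (t n) D.w (mz m) (ht n)]
      have h4 : mon (y n) (sh m) = mon (y n) (mz m) * mon (y n) (- mz m0) := by
        rw [← hadd Qb _ _ _ (hy0 n), ← sub_eq_add_neg]
      rw [h4, sub_eq_add_neg, zpow_add₀ (ht n)]
      show _ = coeff m R * ((t n) ^ (W m) * mon (y n) (mz m)) * _
      ring
    rw [Finset.sum_congr rfl h3, ← Finset.sum_mul, h1, zero_mul]
  let Cc : ℝ := ∑ m ∈ R.support, v p (coeff m R)
  have hCc : 0 ≤ Cc := Finset.sum_nonneg fun m _ => v_nonneg p _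
  have hbd : ∀ n, v p (∑ m ∈ S0, coeff m R * mon (y n) (sh m)) ≤ Cc * u ^ n := by
    intro n
    have h1 := hrel n
    rw [← Finset.sum_filter_add_sum_filter_not R.support (fun m => W m = W m0)] at h1
    have h2 : ∑ m ∈ R.support.filter (fun m => W m = W m0),
        coeff m R * ((t n) ^ (W m - W m0) * mon (y n) (sh m)) =
        ∑ m ∈ S0, coeff m R * mon (y n) (sh m) := by
      refine Finset.sum_congr rfl fun m hm => ?_
      rw [(Finset.mem_filter.mp hm).2, sub_self, zpow_zero, one_mul]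
    rw [h2] at h1
    rw [eq_neg_of_add_eq_zero_left h1, v_neg]
    apply v_sum_le p _ _ (by positivity)
    intro m hm
    obtain ⟨hm1, hm2⟩ := Finset.mem_filter.mp hm
    have hlt : W m - W m0 ≤ -1 := by
      have h3 : W m < W m0 := lt_of_le_of_ne (hmax m hm1) hm2
      omega
    rw [v_mul, v_mul, hvm, mul_one]
    have hv1 : v p ((t n) ^ (W m - W m0)) ≤ u ^ n := by
      have h4 : v p ((t n) ^ (W m - W m0)) = (v p (t n)) ^ (W m - W m0) := by
        simp [v]
      rw [h4]
      calc (v p (t n)) ^ (W m - W m0) ≤ (v p (t n)) ^ (-1 : ℤ) :=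
            zpow_le_zpow_right₀ (hvt1 n) hlt
        _ = u ^ (D.δ ^ n) := by rw [zpow_neg_one, hvt]
        _ ≤ u ^ n := by
          apply pow_le_pow_of_le_one hu0 hu1.le
          exact (Nat.lt_pow_self (lt_of_lt_of_le one_lt_two hD.two)).le
    apply mul_le_mul _ hv1 (v_nonneg p _) hCc
    exact Finset.single_le_sum (f := fun m => v p (coeff m R)) (fun m _ => v_nonneg p _) hm1
  refine ⟨S0.image sh, r, ?_, ?_, ?_, ?_⟩
  · exact ⟨sh m0, Finset.mem_image_of_mem _ (Finset.mem_filter.mpr ⟨hm0, rfl⟩)⟩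
  · intro γ hγ
    obtain ⟨m, hm, rfl⟩ := Finset.mem_image.mp hγ
    rw [hr]
    exact mem_support_iff.mp (Finset.mem_filter.mp hm).1
  · intro γ hγ
    obtain ⟨m, hm, rfl⟩ := Finset.mem_image.mp hγ
    show ∑ i, (mz m - mz m0) i * D.w i = 0
    have h1 : W m = W m0 := (Finset.mem_filter.mp hm).2
    have h2 : ∑ i, (mz m - mz m0) i * D.w i = W m - W m0 := by
      show _ = ∑ i, mz m i * D.w i - ∑ i, mz m0 i * D.w i
      rw [← Finset.sum_sub_distrib]
      refine Finset.sum_congr rfl fun i _ => ?_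
      rw [Pi.sub_apply, sub_mul]
    rw [h2, h1, sub_self]
  · have h1 : ∀ n, ∑ γ ∈ S0.image sh, r γ * mon (y n) γ = ∑ m ∈ S0, coeff m R * mon (y n) (sh m) := by
      intro n
      rw [Finset.sum_image fun a _ b _ h => hsh h]
      exact Finset.sum_congr rfl fun m _ => by rw [hr]
    have h2 : Tendsto (fun n => Cc * u ^ n) atTop (𝓝 0) := by
      have := (tendsto_pow_atTop_nhds_zero_of_lt_one hu0 hu1).const_mul Cc
      rwa [mul_zero] at this
    refine squeeze_zero (fun n => v_nonneg p _) (fun n => ?_) h2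
    rw [h1]
    exact hbd n

end Pool.Agent.H17.ZW.REL
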